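import Mathlib
import Pool.Agent.H592.TD.Defs

set_option autoImplicit false

open Finset

namespace Pool.Agent.H825.TD

open Pool.Agent.H592.TD (Good)

/-- A modulus without large square divisors and without large powers of primes of `s` is good. -/
theorem good_of {s : ℤ} (hs : s ≠ 0) {M Y K : ℕ} (hM : 1 ≤ M)
    (h1 : ∀ d : ℕ, d ^ 2 ∣ M → d ≤ Y)
    (h2 : ∀ p ∈ s.natAbs.primeFactors, ¬ p ^ (K + 1) ∣ M) :
    Good s (s.natAbs ^ K * Y ^ 3) M := by
  set n := s.natAbs with hn
  have hn0 : n ≠ 0 := by rw [hn]; exact Int.natAbs_ne_zero.mpr hs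
  have hM0 : M ≠ 0 := by omega
  set P := M.primeFactors with hP
  set f := M.factorization with hf
  have hPp : ∀ p ∈ P, p.Prime := fun p hp => Nat.prime_of_mem_primeFactors hp
  have hprod : ∏ p ∈ P, p ^ f p = M := by
    have := Nat.prod_factorization_pow_eq_self hM0
    rw [Finsupp.prod, Nat.support_factorization] at this
    exact this
  have hf1 : ∀ p ∈ P, 1 ≤ f p := by
    intro p hp
    exact (hPp p hp).factorization_pos_of_dvd hM0 (Nat.dvd_of_mem_primeFactors hp)
  set B := P.filter (fun p => f p = 1 ∧ ¬ p ∣ n) with hB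
  set A := P.filter (fun p => ¬ (f p = 1 ∧ ¬ p ∣ n)) with hA
  have hBP : ∀ p ∈ B, p ∈ P ∧ f p = 1 ∧ ¬ p ∣ n := fun p hp => mem_filter.mp hp
  have hAP : ∀ p ∈ A, p ∈ P ∧ ¬ (f p = 1 ∧ ¬ p ∣ n) := fun p hp => mem_filter.mp hp
  have hsplit : M = (∏ p ∈ A, p ^ f p) * ∏ p ∈ B, p := by
    have h3 : ∏ p ∈ B, p = ∏ p ∈ B, p ^ f p := by
      refine Finset.prod_congr rfl fun p hp => ?_
      rw [(hBP p hp).2.1, pow_one]
    rw [h3, mul_comm, hB, hA, Finset.prod_filter_mul_prod_filter_not, hprod]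
  refine ⟨∏ p ∈ A, p ^ f p, ∏ p ∈ B, p, hsplit, ?_, ?_, ?_, ?_, ?_⟩
  · exact Finset.prod_pos fun p hp => pow_pos (hPp p (hAP p hp).1).pos _
  · -- the bound
    set A1 := A.filter (fun p => p ∣ n) with hA1
    set A2 := A.filter (fun p => ¬ p ∣ n) with hA2
    have h3 : ∏ p ∈ A, p ^ f p = (∏ p ∈ A1, p ^ f p) * ∏ p ∈ A2, p ^ f p := by
      rw [hA1, hA2, Finset.prod_filter_mul_prod_filter_not]
    rw [h3]
    refine Nat.mul_le_mul ?_ ?_
    · have h4 : ∀ p ∈ A1, p ^ f p ≤ p ^ K := by
        intro p hp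
        rw [hA1, mem_filter] at hp
        have hpp := hPp p (hAP p hp.1).1
        refine Nat.pow_le_pow_right hpp.pos ?_
        by_contra hlt
        have h5 : p ^ (K + 1) ∣ M := by
          rw [hpp.pow_dvd_iff_le_factorization hM0, ← hf]
          omega
        exact h2 p (Nat.mem_primeFactors.mpr ⟨hpp, hp.2, hn0⟩) h5
      refine (Finset.prod_le_prod' h4).trans ?_
      rw [Finset.prod_pow]
      refine Nat.pow_le_pow_left ?_ K
      have h6 : A1 ⊆ n.primeFactors := by
        intro p hp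
        rw [hA1, mem_filter] at hp
        exact Nat.mem_primeFactors.mpr ⟨hPp p (hAP p hp.1).1, hp.2, hn0⟩
      exact Nat.le_of_dvd (Nat.pos_of_ne_zero hn0)
        ((Finset.prod_dvd_prod_of_subset _ _ _ h6).trans (Nat.prod_primeFactors_dvd n))
    · have h4 : ∀ p ∈ A2, 2 ≤ f p := by
        intro p hp
        rw [hA2, mem_filter] at hp
        have h5 := hAP p hp.1
        have h6 := hf1 p h5.1
        have h7 : f p ≠ 1 := fun h => h5.2 ⟨h, hp.2⟩
        omega
      set d := ∏ p ∈ A2, p ^ (f p / 2) with hd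
      have h5 : ∏ p ∈ A2, p ^ f p ≤ d ^ 3 := by
        rw [hd, ← Finset.prod_pow]
        refine Finset.prod_le_prod' fun p hp => ?_
        rw [← pow_mul]
        have h6 := h4 p hp
        rw [hA2, mem_filter] at hp
        exact Nat.pow_le_pow_right (hPp p (hAP p hp.1).1).pos (by omega)
      have h6 : d ^ 2 ∣ M := by
        have h7 : d ^ 2 ∣ ∏ p ∈ A2, p ^ f p := by
          rw [hd, ← Finset.prod_pow]
          refine Finset.prod_dvd_prod_of_dvd _ _ fun p _ => ?_
          rw [← pow_mul]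
          exact pow_dvd_pow _ (by omega)
        have h8 : ∏ p ∈ A2, p ^ f p ∣ ∏ p ∈ P, p ^ f p :=
          Finset.prod_dvd_prod_of_subset _ _ _
            ((Finset.filter_subset _ _).trans (Finset.filter_subset _ _))
        rw [hprod] at h8
        exact h7.trans h8
      exact h5.trans (Nat.pow_le_pow_left (h1 d h6) 3)
  · refine Finset.squarefree_prod_of_pairwise_isCoprime (fun p hp r hr hpr => ?_)
      fun p hp => (hPp p (hBP p hp).1).prime.squarefree
    exact Nat.coprime_iff_isRelPrime.mp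
      ((Nat.coprime_primes (hPp p (hBP p hp).1) (hPp r (hBP r hr).1)).mpr hpr)
  · refine Nat.Coprime.prod_left fun p hp => Nat.Coprime.prod_right fun r hr => ?_
    refine Nat.Coprime.pow_right _ ?_
    rw [Nat.coprime_primes (hPp p (hBP p hp).1) (hPp r (hAP r hr).1)]
    rintro rfl
    exact (hAP p hr).2 (hBP p hp).2
  · refine Nat.Coprime.prod_left fun p hp => ?_
    exact ((hPp p (hBP p hp).1).coprime_iff_not_dvd).mpr (hBP p hp).2.2

end Pool.Agent.H825.TD
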