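import Mathlib
import Pool.Agent.H592.TD.Stm
import Pool.Agent.H825.TD.Good
import Pool.Agent.H555.Sieg.Div

set_option autoImplicit false

open Finset Filter Topology

namespace Pool.Agent.H592.TD

open Pool.Agent.H329R2.AD (dk ram Pr SS)

namespace S6aux

theorem ram_le (e : ℕ) {n : ℕ} (hn : n ≠ 0) : ram e n ≤ ∑ d ∈ n.divisors, (d : ℝ) := by
  unfold ram
  have h1 : ∑ d ∈ e.divisors.filter (fun d => d ∣ n),
      ((ArithmeticFunction.moebius (e / d) : ℤ) : ℝ) * (d : ℝ) ≤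
      ∑ d ∈ e.divisors.filter (fun d => d ∣ n), (d : ℝ) := by
    refine Finset.sum_le_sum fun d _ => ?_
    have h2 : ((ArithmeticFunction.moebius (e / d) : ℤ) : ℝ) ≤ 1 := by
      have h3 := ArithmeticFunction.abs_moebius_le_one (n := e / d)
      have h4 : ArithmeticFunction.moebius (e / d) ≤ 1 := (le_abs_self _).trans h3
      exact_mod_cast h4
    have h5 : (0 : ℝ) ≤ d := Nat.cast_nonneg d
    nlinarith
  refine h1.trans ?_
  refine Finset.sum_le_sum_of_subset_of_nonneg ?_ fun d _ _ => Nat.cast_nonneg d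
  intro d hd
  rw [mem_filter] at hd
  exact Nat.mem_divisors.mpr ⟨hd.2, hn⟩

theorem In_pos {X α β : ℝ} {a : ℕ} (ha : a ∈ In X α β) : 1 ≤ a := by
  unfold In at ha
  rw [mem_Ioc] at ha
  omega

theorem W1_nonneg (X α β : ℝ) (e : ℕ) : 0 ≤ W1 X α β e := by
  unfold W1
  exact Finset.sum_nonneg fun a _ => by positivity

/-- the sum of `τ(e)/e` over the divisors -/
noncomputable def g (M : ℕ) : ℝ := ∑ e ∈ M.divisors, (e.divisors.card : ℝ) / e

theorem g_nonneg (M : ℕ) : 0 ≤ g M := by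
  unfold g
  exact Finset.sum_nonneg fun a _ => by positivity

theorem rho_sum (h2 : S2) {s : ℤ} (hs : s ≠ 0) {α β C X : ℝ}
    (hC : ∀ e : ℕ, 1 ≤ e → W1 X α β e ≤ C * ((e.divisors.card : ℝ) / e) * Real.log X)
    {M : ℕ} (hM : 1 ≤ M) :
    ∑ a ∈ In X α β, rho s a M / (a : ℝ) ≤
      (∑ d ∈ s.natAbs.divisors, (d : ℝ)) * C * Real.log X * (1 / (M : ℝ) * g M) := by
  set σ := ∑ d ∈ s.natAbs.divisors, (d : ℝ) with hσ
  have hσ0 : 0 ≤ σ := Finset.sum_nonneg fun d _ => Nat.cast_nonneg d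
  have hn : s.natAbs ≠ 0 := Int.natAbs_ne_zero.mpr hs
  have e1 : ∑ a ∈ In X α β, rho s a M / (a : ℝ) =
      1 / (M : ℝ) * ∑ e ∈ M.divisors, ram e s.natAbs * W1 X α β e := by
    unfold W1
    simp_rw [Finset.mul_sum]
    rw [Finset.sum_comm]
    refine Finset.sum_congr rfl fun a ha => ?_
    rw [h2 s a M hs (In_pos ha) hM, Finset.mul_sum, Finset.sum_div]
    refine Finset.sum_congr rfl fun e _ => ?_
    rw [div_mul_eq_div_div]
    ring
  rw [e1]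
  have e2 : ∑ e ∈ M.divisors, ram e s.natAbs * W1 X α β e ≤ σ * C * Real.log X * g M := by
    unfold g
    rw [Finset.mul_sum]
    refine Finset.sum_le_sum fun e he => ?_
    have he1 : 1 ≤ e := Nat.pos_of_mem_divisors he
    calc ram e s.natAbs * W1 X α β e ≤ σ * W1 X α β e :=
          mul_le_mul_of_nonneg_right (ram_le e hn) (W1_nonneg _ _ _ _)
      _ ≤ σ * (C * ((e.divisors.card : ℝ) / e) * Real.log X) :=
          mul_le_mul_of_nonneg_left (hC e he1) hσ0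
      _ = σ * C * Real.log X * ((e.divisors.card : ℝ) / e) := by ring
  calc 1 / (M : ℝ) * ∑ e ∈ M.divisors, ram e s.natAbs * W1 X α β e ≤
        1 / (M : ℝ) * (σ * C * Real.log X * g M) :=
        mul_le_mul_of_nonneg_left e2 (by positivity)
    _ = σ * C * Real.log X * (1 / (M : ℝ) * g M) := by ring

theorem term_le {D : ℝ} (hD0 : 0 < D)
    (hD : ∀ n : ℕ, n ≠ 0 → (n.divisors.card : ℝ) ≤ D * (n : ℝ) ^ ((1 : ℝ) / 16)) {m e : ℕ}
    (hm : 1 ≤ m) (he : 1 ≤ e) :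
    (e.divisors.card : ℝ) / e * (((Nat.lcm m e).divisors.card : ℝ) / (Nat.lcm m e : ℕ)) ≤
      D ^ 2 * (m : ℝ) ^ (-(45 / 64) : ℝ) * (e : ℝ) ^ (-(75 / 64) : ℝ) := by
  have key : ∀ n : ℕ, 1 ≤ n → (n.divisors.card : ℝ) / n ≤ D * (n : ℝ) ^ (-(15 / 16) : ℝ) := by
    intro n hn
    have hn0 : (0 : ℝ) < n := by exact_mod_cast hn
    rw [div_le_iff₀ hn0, mul_assoc]
    have h1 : (n : ℝ) ^ (-(15 / 16) : ℝ) * n = (n : ℝ) ^ ((1 : ℝ) / 16) := by
      nth_rewrite 2 [← Real.rpow_one (n : ℝ)]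
      rw [← Real.rpow_add hn0]
      norm_num
    rw [h1]
    exact hD n (by omega)
  have hm0 : (0 : ℝ) < m := by exact_mod_cast hm
  have he0 : (0 : ℝ) < e := by exact_mod_cast he
  have hl : 1 ≤ Nat.lcm m e := Nat.lcm_pos hm he
  have hl0 : (0 : ℝ) < (Nat.lcm m e : ℕ) := by exact_mod_cast hl
  have hml : (m : ℝ) ≤ (Nat.lcm m e : ℕ) := by
    exact_mod_cast Nat.le_of_dvd hl (Nat.dvd_lcm_left m e)
  have hel : (e : ℝ) ≤ (Nat.lcm m e : ℕ) := by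
    exact_mod_cast Nat.le_of_dvd hl (Nat.dvd_lcm_right m e)
  have h2 : ((Nat.lcm m e : ℕ) : ℝ) ^ (-(15 / 16) : ℝ) ≤
      (m : ℝ) ^ (-(45 / 64) : ℝ) * (e : ℝ) ^ (-(15 / 64) : ℝ) := by
    have h3 : (-(15 / 16) : ℝ) = -(45 / 64) + -(15 / 64) := by norm_num
    rw [h3, Real.rpow_add hl0]
    exact mul_le_mul (Real.rpow_le_rpow_of_nonpos hm0 hml (by norm_num))
      (Real.rpow_le_rpow_of_nonpos he0 hel (by norm_num)) (by positivity) (by positivity)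
  calc (e.divisors.card : ℝ) / e * (((Nat.lcm m e).divisors.card : ℝ) / (Nat.lcm m e : ℕ))
      ≤ (D * (e : ℝ) ^ (-(15 / 16) : ℝ)) *
          (D * ((Nat.lcm m e : ℕ) : ℝ) ^ (-(15 / 16) : ℝ)) :=
        mul_le_mul (key e he) (key _ hl) (by positivity) (by positivity)
    _ ≤ (D * (e : ℝ) ^ (-(15 / 16) : ℝ)) *
          (D * ((m : ℝ) ^ (-(45 / 64) : ℝ) * (e : ℝ) ^ (-(15 / 64) : ℝ))) := by
        refine mul_le_mul_of_nonneg_left ?_ (by positivity)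
        exact mul_le_mul_of_nonneg_left h2 hD0.le
    _ = D ^ 2 * (m : ℝ) ^ (-(45 / 64) : ℝ) *
          ((e : ℝ) ^ (-(15 / 16) : ℝ) * (e : ℝ) ^ (-(15 / 64) : ℝ)) := by ring
    _ = D ^ 2 * (m : ℝ) ^ (-(45 / 64) : ℝ) * (e : ℝ) ^ (-(75 / 64) : ℝ) := by
        rw [← Real.rpow_add he0]
        norm_num

theorem T_le {γ₁ γ₂ δ₁ δ₂ C X D : ℝ} (hC0 : 0 ≤ C)
    (hC : ∀ e : ℕ, 1 ≤ e →
      W2 X γ₁ γ₂ δ₁ δ₂ e ≤ C * ((e.divisors.card : ℝ) / e) * Real.log X ^ 2) (hD0 : 0 < D)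
    (hD : ∀ n : ℕ, n ≠ 0 → (n.divisors.card : ℝ) ≤ D * (n : ℝ) ^ ((1 : ℝ) / 16)) {m : ℕ}
    (hm : 1 ≤ m) :
    ∑ u ∈ In X γ₁ γ₂, ∑ v ∈ In X δ₁ δ₂,
      (if m ∣ u * v then 1 / ((u : ℝ) * v) * g (u * v) else 0) ≤
      C * D ^ 2 * (∑' e : ℕ, (e : ℝ) ^ (-(75 / 64) : ℝ)) * (m : ℝ) ^ (-(45 / 64) : ℝ) *
        Real.log X ^ 2 := by
  set N := ⌊X ^ γ₂⌋₊ * ⌊X ^ δ₂⌋₊ with hN
  have e1 : ∑ u ∈ In X γ₁ γ₂, ∑ v ∈ In X δ₁ δ₂,
      (if m ∣ u * v then 1 / ((u : ℝ) * v) * g (u * v) else 0) =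
      ∑ e ∈ Icc 1 N, (e.divisors.card : ℝ) / e * W2 X γ₁ γ₂ δ₁ δ₂ (Nat.lcm m e) := by
    unfold W2
    simp_rw [Finset.mul_sum]
    symm
    rw [Finset.sum_comm]
    refine Finset.sum_congr rfl fun u hu => ?_
    rw [Finset.sum_comm]
    refine Finset.sum_congr rfl fun v hv => ?_
    symm
    have hu1 := In_pos hu
    have hv1 := In_pos hv
    have huv : u * v ≠ 0 := Nat.mul_ne_zero (by omega) (by omega)
    have huN : u * v ≤ N := by
      unfold In at hu hv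
      rw [mem_Ioc] at hu hv
      exact Nat.mul_le_mul hu.2 hv.2
    have hdiv : (u * v).divisors = (Icc 1 N).filter (fun e => e ∣ u * v) := by
      ext e
      rw [Nat.mem_divisors, mem_filter, mem_Icc]
      constructor
      · rintro ⟨h1, -⟩
        exact ⟨⟨Nat.pos_of_dvd_of_pos h1 (Nat.pos_of_ne_zero huv),
          (Nat.le_of_dvd (Nat.pos_of_ne_zero huv) h1).trans huN⟩, h1⟩
      · rintro ⟨-, h1⟩
        exact ⟨h1, huv⟩
    by_cases h : m ∣ u * v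
    · rw [if_pos h]
      unfold g
      rw [hdiv, Finset.sum_filter, Finset.mul_sum]
      refine Finset.sum_congr rfl fun e _ => ?_
      by_cases h1 : e ∣ u * v
      · rw [if_pos h1, if_pos (Nat.lcm_dvd h h1)]
        ring
      · rw [if_neg h1, if_neg (fun h2 => h1 ((Nat.dvd_lcm_right m e).trans h2)), mul_zero,
          mul_zero]
    · rw [if_neg h]
      symm
      refine Finset.sum_eq_zero fun e _ => ?_
      rw [if_neg (fun h2 => h ((Nat.dvd_lcm_left m e).trans h2)), mul_zero]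
  rw [e1]
  have hlog : 0 ≤ Real.log X ^ 2 := sq_nonneg _
  have hsum : Summable (fun e : ℕ => (e : ℝ) ^ (-(75 / 64) : ℝ)) := by
    rw [Real.summable_nat_rpow]
    norm_num
  have e2 : ∀ e ∈ Icc 1 N, (e.divisors.card : ℝ) / e * W2 X γ₁ γ₂ δ₁ δ₂ (Nat.lcm m e) ≤
      C * D ^ 2 * (m : ℝ) ^ (-(45 / 64) : ℝ) * Real.log X ^ 2 * (e : ℝ) ^ (-(75 / 64) : ℝ) := by
    intro e he
    rw [mem_Icc] at he
    have h1 := hC (Nat.lcm m e) (Nat.lcm_pos hm he.1)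
    have h2 := term_le hD0 hD hm he.1
    calc (e.divisors.card : ℝ) / e * W2 X γ₁ γ₂ δ₁ δ₂ (Nat.lcm m e)
        ≤ (e.divisors.card : ℝ) / e * (C * (((Nat.lcm m e).divisors.card : ℝ) /
            (Nat.lcm m e : ℕ)) * Real.log X ^ 2) :=
          mul_le_mul_of_nonneg_left h1 (by positivity)
      _ = C * Real.log X ^ 2 * ((e.divisors.card : ℝ) / e *
            (((Nat.lcm m e).divisors.card : ℝ) / (Nat.lcm m e : ℕ))) := by ring
      _ ≤ C * Real.log X ^ 2 *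
            (D ^ 2 * (m : ℝ) ^ (-(45 / 64) : ℝ) * (e : ℝ) ^ (-(75 / 64) : ℝ)) :=
          mul_le_mul_of_nonneg_left h2 (by positivity)
      _ = _ := by ring
  refine (Finset.sum_le_sum e2).trans ?_
  rw [← Finset.mul_sum]
  have h3 : ∑ e ∈ Icc 1 N, (e : ℝ) ^ (-(75 / 64) : ℝ) ≤
      ∑' e : ℕ, (e : ℝ) ^ (-(75 / 64) : ℝ) :=
    hsum.sum_le_tsum _ fun e _ => by positivity
  calc C * D ^ 2 * (m : ℝ) ^ (-(45 / 64) : ℝ) * Real.log X ^ 2 *
        ∑ e ∈ Icc 1 N, (e : ℝ) ^ (-(75 / 64) : ℝ) ≤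
      C * D ^ 2 * (m : ℝ) ^ (-(45 / 64) : ℝ) * Real.log X ^ 2 *
        ∑' e : ℕ, (e : ℝ) ^ (-(75 / 64) : ℝ) :=
        mul_le_mul_of_nonneg_left h3 (by positivity)
    _ = _ := by ring

theorem exists_Y (ε : ℝ) (hε : 0 < ε) :
    ∃ Y : ℕ, ∀ N : ℕ, ∑ d ∈ Ioc Y N, ((d ^ 2 : ℕ) : ℝ) ^ (-(45 / 64) : ℝ) ≤ ε := by
  have hsum : Summable (fun e : ℕ => (e : ℝ) ^ (-(45 / 32) : ℝ)) := by
    rw [Real.summable_nat_rpow]
    norm_num
  obtain ⟨S, hS⟩ := summable_iff_vanishing_norm.mp hsum ε hε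
  refine ⟨S.sup id, fun N => ?_⟩
  have h1 : Disjoint (Ioc (S.sup id) N) S := by
    rw [Finset.disjoint_left]
    intro d hd hdS
    rw [mem_Ioc] at hd
    have h2 : d ≤ S.sup id := Finset.le_sup (f := id) hdS
    omega
  have h3 := hS _ h1
  have h4 : ∑ d ∈ Ioc (S.sup id) N, ((d ^ 2 : ℕ) : ℝ) ^ (-(45 / 64) : ℝ) =
      ∑ d ∈ Ioc (S.sup id) N, (d : ℝ) ^ (-(45 / 32) : ℝ) := by
    refine Finset.sum_congr rfl fun d _ => ?_
    rw [Nat.cast_pow, ← Real.rpow_natCast (d : ℝ) 2, ← Real.rpow_mul (Nat.cast_nonneg d)]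
    norm_num
  rw [h4]
  exact (le_abs_self _).trans h3.le

theorem exists_k (n : ℕ) (ε : ℝ) (hε : 0 < ε) :
    ∃ k : ℕ, ∑ p ∈ n.primeFactors, ((p ^ (k + 1) : ℕ) : ℝ) ^ (-(45 / 64) : ℝ) ≤ ε := by
  have hr0 : (0 : ℝ) ≤ (2 : ℝ) ^ (-(45 / 64) : ℝ) := by positivity
  have hr1 : (2 : ℝ) ^ (-(45 / 64) : ℝ) < 1 :=
    Real.rpow_lt_one_of_one_lt_of_neg one_lt_two (by norm_num)
  have ht : Tendsto (fun k : ℕ => (n.primeFactors.card : ℝ) *
      ((2 : ℝ) ^ (-(45 / 64) : ℝ)) ^ (k + 1)) atTop (𝓝 ((n.primeFactors.card : ℝ) * 0)) := by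
    refine Tendsto.const_mul _ ?_
    exact (tendsto_pow_atTop_nhds_zero_of_lt_one hr0 hr1).comp (tendsto_add_atTop_nat 1)
  rw [mul_zero] at ht
  obtain ⟨k, hk⟩ := (ht.eventually (gt_mem_nhds hε)).exists
  refine ⟨k, ?_⟩
  have h1 : ∀ p ∈ n.primeFactors, ((p ^ (k + 1) : ℕ) : ℝ) ^ (-(45 / 64) : ℝ) ≤
      ((2 : ℝ) ^ (-(45 / 64) : ℝ)) ^ (k + 1) := by
    intro p hp
    have hp2 : (2 : ℝ) ≤ p := by exact_mod_cast (Nat.prime_of_mem_primeFactors hp).two_le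
    have h2 : ((2 : ℝ) ^ (-(45 / 64) : ℝ)) ^ (k + 1) =
        ((2 : ℝ) ^ (k + 1)) ^ (-(45 / 64) : ℝ) := by
      rw [← Real.rpow_natCast, ← Real.rpow_natCast, ← Real.rpow_mul (by norm_num),
        ← Real.rpow_mul (by norm_num), mul_comm]
    rw [h2, Nat.cast_pow]
    refine Real.rpow_le_rpow_of_nonpos (by positivity) ?_ (by norm_num)
    exact pow_le_pow_left₀ (by norm_num) hp2 _
  refine (Finset.sum_le_sum h1).trans ?_
  rw [Finset.sum_const, nsmul_eq_mul]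
  exact hk.le

end S6aux

open S6aux in
theorem s6 : S2 → S3 → S4 → S6 := by
  intro h2 h3 h4 s hs α₁ α₂ γ₁ γ₂ δ₁ δ₂ hα hα' hγ hγ' hδ hδ' η hη
  classical
  obtain ⟨-, C1, hC1, hW1⟩ := h3 α₁ α₂ hα hα'
  obtain ⟨-, C2, hC2, hW2⟩ := h4 γ₁ γ₂ δ₁ δ₂ hγ hγ' hδ hδ'
  obtain ⟨D, hD0, hD⟩ := Pool.Agent.H555.Sieg.divisor_bound (1 / 16) (by norm_num)
  set σ := ∑ d ∈ s.natAbs.divisors, (d : ℝ) with hσ
  have hσ0 : 0 ≤ σ := Finset.sum_nonneg fun d _ => Nat.cast_nonneg d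
  set T := C2 * D ^ 2 * (∑' e : ℕ, (e : ℝ) ^ (-(75 / 64) : ℝ)) with hT
  have hT0 : 0 ≤ T := by
    have h5 : 0 ≤ ∑' e : ℕ, (e : ℝ) ^ (-(75 / 64) : ℝ) := tsum_nonneg fun e => by positivity
    positivity
  set Q := σ * C1 * T with hQ
  have hQ0 : 0 ≤ Q := by positivity
  obtain ⟨Y, hY⟩ := exists_Y (η / (2 * (Q + 1))) (by positivity)
  obtain ⟨k, hk⟩ := exists_k s.natAbs (η / (2 * (Q + 1))) (by positivity)
  refine ⟨s.natAbs ^ k * Y ^ 3, fun X hX => ?_⟩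
  have hlog : 0 < Real.log X := Real.log_pos (by linarith)
  set N := ⌊X ^ γ₂⌋₊ * ⌊X ^ δ₂⌋₊ with hN
  set Z := s.natAbs ^ k * Y ^ 3 with hZ
  -- interchange
  have e1 : ∑ a ∈ In X α₁ α₂, ∑ u ∈ In X γ₁ γ₂, ∑ v ∈ In X δ₁ δ₂,
      (if Good s Z (u * v) then 0 else rho s a (u * v) / (a : ℝ)) =
      ∑ u ∈ In X γ₁ γ₂, ∑ v ∈ In X δ₁ δ₂,
        (if Good s Z (u * v) then 0 else ∑ a ∈ In X α₁ α₂, rho s a (u * v) / (a : ℝ)) := by
    rw [Finset.sum_comm]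
    refine Finset.sum_congr rfl fun u _ => ?_
    rw [Finset.sum_comm]
    refine Finset.sum_congr rfl fun v _ => ?_
    by_cases h : Good s Z (u * v)
    · simp only [if_pos h, Finset.sum_const_zero]
    · simp only [if_neg h]
  have e2 : ∀ u ∈ In X γ₁ γ₂, ∀ v ∈ In X δ₁ δ₂,
      (if Good s Z (u * v) then 0 else ∑ a ∈ In X α₁ α₂, rho s a (u * v) / (a : ℝ)) ≤
      σ * C1 * Real.log X *
        (∑ d ∈ Ioc Y N, (if d ^ 2 ∣ u * v then 1 / ((u : ℝ) * v) * g (u * v) else 0) +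
         ∑ p ∈ s.natAbs.primeFactors,
          (if p ^ (k + 1) ∣ u * v then 1 / ((u : ℝ) * v) * g (u * v) else 0)) := by
    intro u hu v hv
    have hu1 := In_pos hu
    have hv1 := In_pos hv
    have huv : 1 ≤ u * v := Nat.mul_pos hu1 hv1
    have huN : u * v ≤ N := by
      unfold In at hu hv
      rw [mem_Ioc] at hu hv
      exact Nat.mul_le_mul hu.2 hv.2
    have hw0 : 0 ≤ 1 / ((u : ℝ) * v) * g (u * v) := mul_nonneg (by positivity) (g_nonneg _)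
    have hA0 : ∀ d ∈ Ioc Y N,
        0 ≤ (if d ^ 2 ∣ u * v then 1 / ((u : ℝ) * v) * g (u * v) else 0) := by
      intro d _
      split_ifs
      · exact hw0
      · exact le_rfl
    have hB0 : ∀ p ∈ s.natAbs.primeFactors,
        0 ≤ (if p ^ (k + 1) ∣ u * v then 1 / ((u : ℝ) * v) * g (u * v) else 0) := by
      intro d _
      split_ifs
      · exact hw0
      · exact le_rfl
    have hA := Finset.sum_nonneg hA0
    have hB := Finset.sum_nonneg hB0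
    by_cases h : Good s Z (u * v)
    · rw [if_pos h]
      positivity
    · rw [if_neg h]
      have h6 := rho_sum h2 hs (fun e he => hW1 X hX e he) huv
      refine h6.trans ?_
      refine mul_le_mul_of_nonneg_left ?_ (by positivity)
      rw [Nat.cast_mul]
      by_contra hlt
      push Not at hlt
      apply h
      refine Pool.Agent.H825.TD.good_of hs huv ?_ ?_
      · intro d hd
        by_contra hdY
        push Not at hdY
        have hdN : d ≤ N := by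
          have h7 : d ^ 2 ≤ u * v := Nat.le_of_dvd huv hd
          have h8 : d ≤ d ^ 2 := by nlinarith
          omega
        have h9 := Finset.single_le_sum hA0 (mem_Ioc.mpr ⟨hdY, hdN⟩)
        rw [if_pos hd] at h9
        linarith
      · intro p hp hpd
        have h9 := Finset.single_le_sum hB0 hp
        rw [if_pos hpd] at h9
        linarith
  have e3 : ∑ u ∈ In X γ₁ γ₂, ∑ v ∈ In X δ₁ δ₂,
      (σ * C1 * Real.log X *
        (∑ d ∈ Ioc Y N, (if d ^ 2 ∣ u * v then 1 / ((u : ℝ) * v) * g (u * v) else 0) +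
         ∑ p ∈ s.natAbs.primeFactors,
          (if p ^ (k + 1) ∣ u * v then 1 / ((u : ℝ) * v) * g (u * v) else 0))) =
      σ * C1 * Real.log X *
        (∑ d ∈ Ioc Y N, ∑ u ∈ In X γ₁ γ₂, ∑ v ∈ In X δ₁ δ₂,
            (if d ^ 2 ∣ u * v then 1 / ((u : ℝ) * v) * g (u * v) else 0) +
         ∑ p ∈ s.natAbs.primeFactors, ∑ u ∈ In X γ₁ γ₂, ∑ v ∈ In X δ₁ δ₂,
          (if p ^ (k + 1) ∣ u * v then 1 / ((u : ℝ) * v) * g (u * v) else 0)) := by
    simp_rw [← Finset.mul_sum, Finset.sum_add_distrib]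
    congr 2
    · symm
      rw [Finset.sum_comm]
      refine Finset.sum_congr rfl fun u _ => ?_
      exact Finset.sum_comm
    · symm
      rw [Finset.sum_comm]
      refine Finset.sum_congr rfl fun u _ => ?_
      exact Finset.sum_comm
  have hA : ∑ d ∈ Ioc Y N, ∑ u ∈ In X γ₁ γ₂, ∑ v ∈ In X δ₁ δ₂,
      (if d ^ 2 ∣ u * v then 1 / ((u : ℝ) * v) * g (u * v) else 0) ≤
      T * Real.log X ^ 2 * (η / (2 * (Q + 1))) := by
    have h5 : ∀ d ∈ Ioc Y N, ∑ u ∈ In X γ₁ γ₂, ∑ v ∈ In X δ₁ δ₂,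
        (if d ^ 2 ∣ u * v then 1 / ((u : ℝ) * v) * g (u * v) else 0) ≤
        T * Real.log X ^ 2 * ((d ^ 2 : ℕ) : ℝ) ^ (-(45 / 64) : ℝ) := by
      intro d hd
      rw [mem_Ioc] at hd
      have h6 := T_le hC2 (fun e he => hW2 X hX e he) hD0 hD (m := d ^ 2)
        (Nat.pos_of_ne_zero (pow_ne_zero 2 (by omega)))
      refine h6.trans (le_of_eq ?_)
      rw [hT]
      ring
    refine (Finset.sum_le_sum h5).trans ?_
    rw [← Finset.mul_sum]
    exact mul_le_mul_of_nonneg_left (hY N) (by positivity)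
  have hB : ∑ p ∈ s.natAbs.primeFactors, ∑ u ∈ In X γ₁ γ₂, ∑ v ∈ In X δ₁ δ₂,
      (if p ^ (k + 1) ∣ u * v then 1 / ((u : ℝ) * v) * g (u * v) else 0) ≤
      T * Real.log X ^ 2 * (η / (2 * (Q + 1))) := by
    have h5 : ∀ p ∈ s.natAbs.primeFactors, ∑ u ∈ In X γ₁ γ₂, ∑ v ∈ In X δ₁ δ₂,
        (if p ^ (k + 1) ∣ u * v then 1 / ((u : ℝ) * v) * g (u * v) else 0) ≤
        T * Real.log X ^ 2 * ((p ^ (k + 1) : ℕ) : ℝ) ^ (-(45 / 64) : ℝ) := by
      intro p hp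
      have hpp := (Nat.prime_of_mem_primeFactors hp).pos
      have h6 := T_le hC2 (fun e he => hW2 X hX e he) hD0 hD (m := p ^ (k + 1))
        (pow_pos hpp _)
      refine h6.trans (le_of_eq ?_)
      rw [hT]
      ring
    refine (Finset.sum_le_sum h5).trans ?_
    rw [← Finset.mul_sum]
    exact mul_le_mul_of_nonneg_left hk (by positivity)
  have hfin : σ * C1 * Real.log X *
      (T * Real.log X ^ 2 * (η / (2 * (Q + 1))) + T * Real.log X ^ 2 * (η / (2 * (Q + 1)))) ≤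
      η * Real.log X ^ 3 := by
    have h5 : σ * C1 * Real.log X *
      (T * Real.log X ^ 2 * (η / (2 * (Q + 1))) + T * Real.log X ^ 2 * (η / (2 * (Q + 1)))) =
      (Q / (Q + 1)) * (η * Real.log X ^ 3) := by
      rw [hQ]
      field_simp
      ring
    rw [h5]
    have h6 : Q / (Q + 1) ≤ 1 := by
      rw [div_le_one (by linarith)]
      linarith
    have h7 : 0 ≤ η * Real.log X ^ 3 := by positivity
    calc Q / (Q + 1) * (η * Real.log X ^ 3) ≤ 1 * (η * Real.log X ^ 3) :=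
          mul_le_mul_of_nonneg_right h6 h7
      _ = _ := one_mul _
  have hall := (Finset.sum_le_sum fun u hu => Finset.sum_le_sum fun v hv => e2 u hu v hv).trans
    (le_of_eq e3)
  rw [← e1] at hall
  refine hall.trans (le_trans ?_ hfin)
  exact mul_le_mul_of_nonneg_left (add_le_add hA hB) (by positivity)

end Pool.Agent.H592.TD
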